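import Mathlib
import Pool.Agent.J4.H56.Row
import Pool.Agent.J4.H56.Fixed

/-!
# The four exponentials conjecture with one fixed number

We call `(x, y)` a first row if there is a `2 × 2` matrix of logarithms of positive rational (or
algebraic) numbers, with first row `(x, y)` and ARBITRARY second row, which has determinant `0`,
`ℚ`-linearly independent rows and `ℚ`-linearly independent columns.  The four exponentials conjecture
says that there are no first rows.

Let `a` be a fixed positive rational (or algebraic) number, and let `q_1, …, q_N` be positive rational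
(or algebraic) numbers with `ℚ`-linearly independent logarithms.

The set of the elements `b` of the group generated by the `q_j` such that `(log a, log b)` is a first
row has dimension at most four: any five linear forms with rational coefficients in the exponents of
`b` satisfy a nontrivial polynomial relation on it.  At most `C H ^ 4` of the `(2 H + 1) ^ N` numbers
`b = ∏ q_j ^ b_j` with `|b_j| ≤ H` have this property.  In other words, for all the other `b` there is
no irrational `t` such that `a ^ t` and `b ^ t` are both rational (or algebraic), unless `a` and `b`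
are multiplicatively dependent.

The proof: if this fails one has in an ultrapower a generic pair `(x₀, y)`, `x₀ = log a`, a second row
`(w, z)`, and five derivations of `y` which are independent.  The derivatives of
`x₀ z - y w = 0` are relations `x₀ ∂z - y ∂w - w ∂y = 0` with the three coefficients `x₀, y, w`, and together
with `x₀ y - y x₀ = 0` and `x₀ z - y w = 0` they are seven independent relations; but there are at
most six by the hyperplane case of the linear subgroup theorem.  If `x₀, y, w` are dependent then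
`y ^ 2 / x₀` is a linear form in logarithms, the products of `y / x₀` and the derivatives `∂y`
are linear forms in logarithms, and the six exponentials theorem gives the contradiction.
-/

set_option autoImplicit false

namespace Pool.Agent.Results.MP_bbc1fa_nt.FixedElement

open Module
open Pool.Agent.J4.H56
open Pool.Agent.Y787.GL (cmb)
open Pool.Agent.Y787 (QC)
open Pool.Agent.R350 (BadRow)
open Pool.Agent.H301R2.SSE (Lt Lt_log)

/-- `(x, y)` is the first row of a `2 × 2` matrix of real logarithms of positive algebraic numbers with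
determinant `0`, `ℚ`-linearly independent rows and `ℚ`-linearly independent columns -/
def IsFirstRow (x y : ℝ) : Prop :=
  ∃ M : Matrix (Fin 2) (Fin 2) ℝ, (∀ i j, IsAlgebraic ℚ (Real.exp (M i j))) ∧
    M 0 0 = x ∧ M 0 1 = y ∧
    LinearIndependent ℚ (fun i : Fin 2 => fun j : Fin 2 => M i j) ∧
    LinearIndependent ℚ (fun j : Fin 2 => fun i : Fin 2 => M i j) ∧ M.det = 0

/-- the embedding of the reals -/
noncomputable def φ : ℝ →ₗ[ℚ] ℂ := (Complex.ofRealAm.toLinearMap).restrictScalars ℚ

theorem φ_inj : Function.Injective φ := fun a b h => by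
  change (a : ℂ) = (b : ℂ) at h
  exact_mod_cast h

/-- Baker's theorem for two logarithms -/
theorem baker_two {x y : ℝ} (hx : IsAlgebraic ℚ (Real.exp x)) (hy : IsAlgebraic ℚ (Real.exp y))
    (h : LinearIndependent ℚ ![x, y]) (s t : algebraicClosure ℚ ℂ)
    (h0 : (s : ℂ) * x + t * y = 0) : s = 0 ∧ t = 0 := by
  have h1 : LinearIndependent ℚ (fun j : Fin 2 => ((![x, y] j : ℝ) : ℂ)) :=
    h.map' φ (LinearMap.ker_eq_bot.2 φ_inj)
  have h2 := Pool.Agent.H297R2.baker_inhom (fun j : Fin 2 => ((![x, y] j : ℝ) : ℂ)) (by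
      intro j
      rw [← Complex.ofReal_exp]
      fin_cases j
      · exact hx.algebraMap
      · exact hy.algebraMap) h1 0 isAlgebraic_zero ![(s : ℂ), t] (by
      intro j
      fin_cases j
      · exact mem_algebraicClosure_iff.1 s.2
      · exact mem_algebraicClosure_iff.1 t.2) (by
      rw [Fin.sum_univ_two, zero_add]
      exact h0)
  exact ⟨Subtype.ext (h2.2 0), Subtype.ext (h2.2 1)⟩

theorem badRow_of {x y : ℝ} (h : IsFirstRow x y) : BadRow Lt (x : ℂ) (y : ℂ) := by
  obtain ⟨M, hM, rfl, rfl, hr, hc, hdet⟩ := h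
  have hdet' : M 0 0 * M 1 1 = M 0 1 * M 1 0 := by
    rw [Matrix.det_fin_two] at hdet
    linear_combination hdet
  have h1 := Pool.Agent.R350.row_li M hdet' hr hc
  have h2 := Pool.Agent.R350.row_li M.transpose (by
    simp only [Matrix.transpose_apply]
    linear_combination hdet') hc hr
  have e1 : (fun j : Fin 2 => M 0 j) = ![M 0 0, M 0 1] := by
    funext j; fin_cases j <;> rfl
  have e2 : (fun j : Fin 2 => M.transpose 0 j) = ![M 0 0, M 1 0] := by
    funext j; fin_cases j <;> rfl
  rw [e1] at h1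
  rw [e2] at h2
  have hmem : ∀ i j, (M i j : ℂ) ∈ Lt := fun i j =>
    Lt_log (by
      rw [← Complex.ofReal_exp]
      exact (hM i j).algebraMap)
  refine ⟨_, hmem 1 0, _, hmem 1 1, by exact_mod_cast hdet', fun s t h3 _ => ?_,
    fun s t h3 _ => ?_⟩
  · exact baker_two (hM 0 0) (hM 1 0) h2 s t h3
  · exact baker_two (hM 0 0) (hM 0 1) h1 s t h3

/-- the entries of a first row are independent -/
theorem li_of {x y : ℝ} (h : IsFirstRow x y) (s t : ℚ) (hst : (s : ℝ) * x + t * y = 0) :
    s = 0 ∧ t = 0 := by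
  obtain ⟨M, hM, rfl, rfl, hr, hc, hdet⟩ := h
  have hdet' : M 0 0 * M 1 1 = M 0 1 * M 1 0 := by
    rw [Matrix.det_fin_two] at hdet
    linear_combination hdet
  have h1 := Pool.Agent.R350.row_li M hdet' hr hc
  have e1 : (fun j : Fin 2 => M 0 j) = ![M 0 0, M 0 1] := by
    funext j; fin_cases j <;> rfl
  rw [e1, LinearIndependent.pair_iff] at h1
  exact h1 s t (by rw [Rat.smul_def, Rat.smul_def]; exact hst)

/-- finiteness of boxes -/
theorem box_finite {σ : Type} [Fintype σ] (H : ℕ) (S : Set (σ → ℤ)) :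
    {a : σ → ℤ | (∀ j, |a j| ≤ H) ∧ a ∈ S}.Finite := by
  classical
  have h1 : ((Fintype.piFinset fun _ : σ => Finset.Icc (-(H : ℤ)) H : Finset (σ → ℤ)) :
      Set (σ → ℤ)).Finite := Finset.finite_toSet _
  refine h1.subset fun a ha => ?_
  rw [Finset.mem_coe, Fintype.mem_piFinset]
  intro j
  rw [Finset.mem_Icc, ← abs_le]
  exact ha.1 j

section logs

variable {N : ℕ} {q : Fin N → ℝ}

theorem mem_log (hq : ∀ j, 0 < q j ∧ IsAlgebraic ℚ (q j)) (j : Fin N) :
    (Real.log (q j) : ℂ) ∈ Lt := Lt_log (by
  rw [← Complex.ofReal_exp, Real.exp_log (hq j).1]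
  exact (hq j).2.algebraMap)

theorem li_log (hq : ∀ j, 0 < q j ∧ IsAlgebraic ℚ (q j))
    (hli : LinearIndependent ℚ (fun j => Real.log (q j))) :
    LinearIndependent (QC ℂ) (fun j => (Real.log (q j) : ℂ)) := by
  have halg : ∀ j, IsAlgebraic ℚ (Complex.exp (Real.log (q j) : ℂ)) := fun j => by
    rw [← Complex.ofReal_exp, Real.exp_log (hq j).1]
    exact (hq j).2.algebraMap
  have hliC : LinearIndependent ℚ (fun j => (Real.log (q j) : ℂ)) :=
    hli.map' φ (LinearMap.ker_eq_bot.2 φ_inj)
  rw [Fintype.linearIndependent_iff]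
  intro g hg
  have h1 := Pool.Agent.H297R2.baker_inhom (fun j => (Real.log (q j) : ℂ)) halg hliC 0
    isAlgebraic_zero (fun j => (g j : ℂ)) (fun j => mem_algebraicClosure_iff.1 (g j).2) (by
      rw [zero_add, ← hg]
      exact Finset.sum_congr rfl fun j _ => by rw [Algebra.smul_def]; rfl)
  exact fun j => Subtype.ext (h1.2 j)

theorem log_prod' (hq : ∀ j, 0 < q j ∧ IsAlgebraic ℚ (q j)) (a : Fin N → ℤ) :
    Real.log (∏ j, q j ^ a j) = ∑ j, ((a j : ℚ) : ℝ) * Real.log (q j) := by
  rw [Real.log_prod (fun j _ => (zpow_pos (hq j).1 _).ne')]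
  refine Finset.sum_congr rfl fun j _ => ?_
  rw [Real.log_zpow]
  push_cast
  rfl

end logs

/-- **Main result.** -/
theorem result (a : ℝ) (ha : 0 < a) (halg : IsAlgebraic ℚ a) (N : ℕ) (q : Fin N → ℝ)
    (hq : ∀ j, 0 < q j ∧ IsAlgebraic ℚ (q j))
    (hli : LinearIndependent ℚ (fun j => Real.log (q j))) :
    (∀ f : Fin 5 → ((Fin N → ℚ) →ₗ[ℚ] ℚ), ∃ P : MvPolynomial (Fin 5) ℚ, P ≠ 0 ∧
      ∀ b : Fin N → ℚ, IsFirstRow (Real.log a) (∑ j, (b j : ℝ) * Real.log (q j)) →
        MvPolynomial.eval (fun k => f k b) P = 0) ∧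
    ∃ C : ℕ, ∀ H : ℕ, 1 ≤ H →
      Set.ncard {b : Fin N → ℤ | (∀ j, |b j| ≤ H) ∧
        IsFirstRow (Real.log a) (Real.log (∏ j, q j ^ b j))} ≤ C * H ^ 4 := by
  classical
  set l : Fin N → ℂ := fun j => (Real.log (q j) : ℂ) with hl
  have hx₀ : (Real.log a : ℂ) ∈ Lt := Lt_log (by
    rw [← Complex.ofReal_exp, Real.exp_log ha]
    exact halg.algebraMap)
  have hdim := fixed_dim' (Lt := Lt) l (li_log hq hli) (mem_log hq) (Real.log a : ℂ) hx₀
  have hbad : ∀ b : Fin N → ℚ, IsFirstRow (Real.log a) (∑ j, (b j : ℝ) * Real.log (q j)) →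
      BadRow Lt (Real.log a : ℂ) (cmb l (fun j => (b j : QC ℂ))) := by
    intro b hb
    have h1 := badRow_of hb
    convert h1 using 1
    rw [cmb]
    push_cast
    refine Finset.sum_congr rfl fun j _ => ?_
    rfl
  refine ⟨?_, ?_⟩
  · intro f
    -- extension of scalars of the linear forms
    let F : Fin 5 → ((Fin N → QC ℂ) →ₗ[QC ℂ] QC ℂ) := fun k =>
      ∑ j, ((f k (Pi.single j 1) : ℚ) : QC ℂ) • LinearMap.proj j
    have hF : ∀ k (b : Fin N → ℚ), F k (fun j => (b j : QC ℂ)) = ((f k b : ℚ) : QC ℂ) := by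
      intro k b
      have h1 : f k b = ∑ j, b j * f k (Pi.single j 1) := by
        conv_lhs => rw [pi_eq_sum_univ' b, map_sum]
        refine Finset.sum_congr rfl fun j _ => ?_
        rw [map_smul, smul_eq_mul]
      rw [h1]
      simp only [F, LinearMap.sum_apply, LinearMap.smul_apply, LinearMap.proj_apply, smul_eq_mul]
      push_cast
      refine Finset.sum_congr rfl fun j _ => ?_
      rw [mul_comm]
    obtain ⟨P, hP, h⟩ := hdim F
    obtain ⟨R, hR, hR'⟩ := descend P hP
    refine ⟨R, hR, fun b hb => hR' _ ?_⟩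
    have h1 := h _ (hbad b hb)
    simp only [hF] at h1
    exact h1
  · obtain ⟨C, hC⟩ := Pool.Agent.TH519.HS.count (K := QC ℂ) (d := 4) (M := N)
      {x | BadRow Lt (Real.log a : ℂ) (cmb l x)} (by
        intro φ
        obtain ⟨P, hP, h⟩ := hdim φ
        exact ⟨P, hP, fun x hx => h x hx⟩)
    refine ⟨C, fun H hH => ?_⟩
    have hfin := box_finite H {b : Fin N → ℤ |
      IsFirstRow (Real.log a) (Real.log (∏ j, q j ^ b j))}
    change Set.ncard {b : Fin N → ℤ | (∀ x, |b x| ≤ H) ∧ b ∈ {b : Fin N → ℤ |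
      IsFirstRow (Real.log a) (Real.log (∏ j, q j ^ b j))}} ≤ _
    rw [Set.ncard_eq_toFinset_card _ hfin]
    refine hC H hH _ fun b hb => ?_
    rw [Set.Finite.mem_toFinset] at hb
    refine ⟨hb.1, ?_⟩
    have h1 := hb.2
    rw [Set.mem_ofPred_eq, log_prod' hq] at h1
    have h2 := hbad (fun j => (b j : ℚ)) h1
    rw [Set.mem_ofPred_eq]
    convert h2 using 2
    funext j
    push_cast
    rfl

end Pool.Agent.Results.MP_bbc1fa_nt.FixedElement
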