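import Mathlib
import Pool.Agent.N770.RowsGen
import Pool.Agent.N770.Classical2
import Pool.Agent.R350.Inst
import Pool.Agent.Y787.CStrat

/-!
# The four exponentials conjecture for rational numbers: one row in a finitely generated group

A counterexample to the four exponentials conjecture is a `2 × 2` matrix `A` of positive rational (or
algebraic) numbers such that the matrix of the logarithms of the entries has determinant `0` and
`ℚ`-linearly independent rows and columns.

1. Let `V` be a `ℚ`-space of dimension `n` of logarithms of positive algebraic numbers.  There is a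
   `ℚ`-space `W ⊇ V` of logarithms of positive algebraic numbers, of dimension at most `n ^ 2`, which
   contains the logarithms of ALL entries of ALL counterexamples one row of which, or one column, or
   only a nontrivial rational combination of the two rows or of the two columns of logarithms, has its
   two entries in `V`.
2. Consequently for every finite set `S` of primes there is a finite set `S'` of primes such that all
   the entries of every counterexample of rational numbers with one row (or column) composed of primes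
   of `S` are composed of primes of `S'`.

In other words: if `a`, `b` are multiplicatively independent, composed of primes of `S`, `t` is
irrational and `a ^ t`, `b ^ t` are rational numbers, then `a ^ t` and `b ^ t` are composed of primes of
`S'`, a finite set which depends only on `S`.

The proof: by the hyperplane case of the linear subgroup theorem (Waldschmidt, Roy) the kernel of the
multiplication `V ⊗ W → V W` has dimension at most `n (n - 1)` for all spaces `W` of linear forms in
logarithms with algebraic coefficients, and the relations `u (t u') = u' (t u)` make it grow if `W` is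
enlarged by `t U`, `U ⊂ V` (`Pool.Agent.N770.rows_sq_gen`, which the starting result `OneRowInASpace`
applies to `p`-adic logarithms).  The descent from algebraic to rational coefficients uses Baker's
theorem.
-/

set_option autoImplicit false

namespace Pool.Agent.Results.MP_bbc1fa_nt.OneRowInGroup

open Module
open Pool.Agent.Y787 (QC)
open Pool.Agent.H301R2.SSE (Lt Lt_log)

/-- The real matrix `M` is the matrix of the logarithms of a counterexample: the exponentials of the
entries are algebraic, the rows and the columns are `ℚ`-linearly independent, the determinant is zero. -/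
def IsCounterexample (M : Matrix (Fin 2) (Fin 2) ℝ) : Prop :=
  (∀ i j, IsAlgebraic ℚ (Real.exp (M i j))) ∧
    LinearIndependent ℚ (fun i : Fin 2 => fun j : Fin 2 => M i j) ∧
    LinearIndependent ℚ (fun j : Fin 2 => fun i : Fin 2 => M i j) ∧ M.det = 0

/-- The rational number `a` is composed of primes of `S`. -/
def ComposedOf (S : Finset ℕ) (a : ℚ) : Prop := ∀ p : ℕ, p.Prime → padicValRat p a ≠ 0 → p ∈ S

/-- the embedding of the reals -/
noncomputable def φ : ℝ →ₗ[ℚ] ℂ := (Complex.ofRealAm.toLinearMap).restrictScalars ℚ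

theorem φ_inj : Function.Injective φ := fun a b h => by
  change (a : ℂ) = (b : ℂ) at h
  exact_mod_cast h

/-- Baker's theorem for two logarithms -/
theorem baker_two {x y : ℝ} (hx : IsAlgebraic ℚ (Real.exp x)) (hy : IsAlgebraic ℚ (Real.exp y))
    (h : LinearIndependent ℚ ![x, y]) (s t : algebraicClosure ℚ ℂ)
    (h0 : (s : ℂ) * x + t * y = 0) : s = 0 ∧ t = 0 := by
  have h1 : LinearIndependent ℚ (fun j : Fin 2 => ((![x, y] j : ℝ) : ℂ)) :=
    h.map' φ (LinearMap.ker_eq_bot.2 φ_inj)
  have h2 := Pool.Agent.H297R2.baker_inhom (fun j : Fin 2 => ((![x, y] j : ℝ) : ℂ)) (by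
      intro j
      rw [← Complex.ofReal_exp]
      fin_cases j
      · exact hx.algebraMap
      · exact hy.algebraMap) h1 0 isAlgebraic_zero ![(s : ℂ), t] (by
      intro j
      fin_cases j
      · exact mem_algebraicClosure_iff.1 s.2
      · exact mem_algebraicClosure_iff.1 t.2) (by
      rw [Fin.sum_univ_two, zero_add]
      exact h0)
  exact ⟨Subtype.ext (h2.2 0), Subtype.ext (h2.2 1)⟩

/-- rows are independent over the algebraic numbers -/
theorem row_QC {M : Matrix (Fin 2) (Fin 2) ℝ} (h : IsCounterexample M) :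
    LinearIndependent (QC ℂ) (M.map (fun x : ℝ => (x : ℂ))).row := by
  obtain ⟨hM, hr, hc, hdet⟩ := h
  have hdet' : M 0 0 * M 1 1 = M 0 1 * M 1 0 := by
    rw [Matrix.det_fin_two] at hdet
    linear_combination hdet
  have h2 := Pool.Agent.R350.row_li M.transpose (by
    simp only [Matrix.transpose_apply]
    linear_combination hdet') hc hr
  have e2 : (fun j : Fin 2 => M.transpose 0 j) = ![M 0 0, M 1 0] := by
    funext j; fin_cases j <;> rfl
  rw [e2] at h2
  rw [Fintype.linearIndependent_iff]
  intro g hg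
  rw [Fin.sum_univ_two] at hg
  have h3 := congrFun hg 0
  rw [Pi.add_apply, Pi.smul_apply, Pi.smul_apply, Pi.zero_apply, Algebra.smul_def,
    Algebra.smul_def] at h3
  obtain ⟨h4, h5⟩ := baker_two (hM 0 0) (hM 1 0) h2 (g 0) (g 1) h3
  intro i
  fin_cases i
  · exact h4
  · exact h5

theorem transpose_counter {M : Matrix (Fin 2) (Fin 2) ℝ} (h : IsCounterexample M) :
    IsCounterexample M.transpose :=
  ⟨fun i j => h.1 j i, h.2.2.1, h.2.1, by rw [Matrix.det_transpose]; exact h.2.2.2⟩

theorem col_QC {M : Matrix (Fin 2) (Fin 2) ℝ} (h : IsCounterexample M) :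
    LinearIndependent (QC ℂ) (M.map (fun x : ℝ => (x : ℂ))).col :=
  row_QC (transpose_counter h)

theorem det_C {M : Matrix (Fin 2) (Fin 2) ℝ} (h : M.det = 0) :
    (M.map (fun x : ℝ => (x : ℂ))).det = 0 := by
  rw [Matrix.det_fin_two] at h ⊢
  simp only [Matrix.map_apply]
  exact_mod_cast h

/-- the space of the real logarithms in a complex space -/
noncomputable def logsIn (W : Submodule (QC ℂ) ℂ) : Submodule ℚ ℝ where
  carrier := {z | IsAlgebraic ℚ (Real.exp z) ∧ (z : ℂ) ∈ W}
  add_mem' := by
    rintro x y ⟨h1, h2⟩ ⟨h3, h4⟩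
    refine ⟨by rw [Real.exp_add]; exact h1.mul h3, ?_⟩
    push_cast
    exact W.add_mem h2 h4
  zero_mem' := ⟨by rw [Real.exp_zero]; exact isAlgebraic_one, by
    push_cast
    exact W.zero_mem⟩
  smul_mem' := by
    rintro c x ⟨h1, h2⟩
    refine ⟨?_, ?_⟩
    · have h3 : IsAlgebraic ℚ (Real.exp (c • x) ^ c.den) := by
        rw [← Real.exp_nat_mul, Rat.smul_def]
        have h4 : (c.den : ℝ) * ((c : ℝ) * x) = (c.num : ℝ) * x := by
          have h5 : (c.den : ℝ) * (c : ℝ) = c.num := by
            exact_mod_cast Rat.den_mul_eq_num c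
          rw [← mul_assoc, h5]
        rw [h4, mul_comm, Real.exp_mul, Real.rpow_intCast]
        exact Pool.Agent.W245.PB.isAlgebraic_zpow h1 _
      exact h3.of_pow c.den_pos
    · have h3 := W.smul_mem ((c : ℚ) : QC ℂ) h2
      rw [Algebra.smul_def, map_ratCast] at h3
      rw [Rat.smul_def]
      push_cast
      exact h3

theorem logsIn_finrank (W : Submodule (QC ℂ) ℂ) [FiniteDimensional (QC ℂ) W] :
    FiniteDimensional ℚ (logsIn W) ∧ finrank ℚ (logsIn W) ≤ finrank (QC ℂ) W := by
  have h1 : Module.rank ℚ (logsIn W) ≤ (finrank (QC ℂ) W : ℕ) := by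
    refine rank_le fun s hs => ?_
    -- independent logarithms
    have h2 : LinearIndependent ℚ (fun i : s => (((i : logsIn W) : ℝ) : ℂ)) := by
      have h3 := hs.map' (logsIn W).subtype (Submodule.ker_subtype _)
      exact h3.map' φ (LinearMap.ker_eq_bot.2 φ_inj)
    let e := Fintype.equivFin s
    have h4 : LinearIndependent ℚ (fun i : Fin (Fintype.card s) =>
        (((e.symm i : logsIn W) : ℝ) : ℂ)) := h2.comp _ e.symm.injective
    have h5 := Pool.Agent.N770.li_logs _ (fun i => by
      rw [← Complex.ofReal_exp]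
      exact (e.symm i : logsIn W).2.1.algebraMap) h4
    have h6 : LinearIndependent (QC ℂ) (fun i : Fin (Fintype.card s) =>
        (⟨(((e.symm i : logsIn W) : ℝ) : ℂ), (e.symm i : logsIn W).2.2⟩ : W)) := by
      refine LinearIndependent.of_comp W.subtype ?_
      exact h5
    have h7 := h6.fintype_card_le_finrank
    rw [Fintype.card_fin, Fintype.card_coe] at h7
    exact h7
  have h2 : Module.Finite ℚ (logsIn W) := by
    rw [Module.finite_def, ← Module.finite_def, ← Module.rank_lt_aleph0_iff]
    exact h1.trans_lt (Cardinal.natCast_lt_aleph0)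
  exact ⟨h2, Module.finrank_le_of_rank_le h1⟩

/-- **One row in a space.** -/
theorem one_row (V : Submodule ℚ ℝ) [FiniteDimensional ℚ V]
    (hV : ∀ v ∈ V, IsAlgebraic ℚ (Real.exp v)) :
    ∃ W : Submodule ℚ ℝ, FiniteDimensional ℚ W ∧ V ≤ W ∧ (∀ w ∈ W, IsAlgebraic ℚ (Real.exp w)) ∧
      finrank ℚ W ≤ finrank ℚ V ^ 2 ∧
      ∀ M : Matrix (Fin 2) (Fin 2) ℝ, IsCounterexample M →
        (∃ a : Fin 2 → ℚ, a ≠ 0 ∧
          ((∀ j, (a 0 : ℝ) * M 0 j + a 1 * M 1 j ∈ V) ∨ ∀ i, (a 0 : ℝ) * M i 0 + a 1 * M i 1 ∈ V)) →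
        ∀ i j, M i j ∈ W := by
  classical
  set VC : Submodule ℚ ℂ := V.map φ with hVC
  have hVCf : FiniteDimensional ℚ VC := inferInstance
  have hVCd : finrank ℚ VC = finrank ℚ V :=
    (Submodule.equivMapOfInjective φ φ_inj V).symm.finrank_eq
  obtain ⟨hd, hfd⟩ := Pool.Agent.N770.finrank_span_QB VC
  set VQ : Submodule (QC ℂ) ℂ := Submodule.span (QC ℂ) (VC : Set ℂ) with hVQ
  have hVQf : FiniteDimensional (QC ℂ) VQ := hfd
  have hmemV : ∀ v ∈ V, (v : ℂ) ∈ VQ := fun v hv =>
    Submodule.subset_span (Submodule.mem_map.2 ⟨v, hv, rfl⟩)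
  have hVQL : VQ ≤ Lt := by
    rw [hVQ, Submodule.span_le]
    rintro _ ⟨v, hv, rfl⟩
    apply Lt_log
    change IsAlgebraic ℚ (Complex.exp (v : ℂ))
    rw [← Complex.ofReal_exp]
    exact (hV v hv).algebraMap
  obtain ⟨WQ, hWf, hVW, hWL, hWd, hW⟩ := Pool.Agent.N770.rows_sq_gen (K := QC ℂ) (S := Lt)
    Pool.Agent.N770.prodLe_of_hyp VQ hVQL
  obtain ⟨h1, h2⟩ := logsIn_finrank WQ
  refine ⟨logsIn WQ, h1, fun v hv => ⟨hV v hv, hVW (hmemV v hv)⟩, fun w hw => hw.1, ?_, ?_⟩
  · refine h2.trans (hWd.trans (Nat.pow_le_pow_left ?_ 2))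
    rw [← hVCd]
    exact hd
  · -- rows
    have rows : ∀ M : Matrix (Fin 2) (Fin 2) ℝ, IsCounterexample M → ∀ a : Fin 2 → ℚ, a ≠ 0 →
        (∀ j, (a 0 : ℝ) * M 0 j + a 1 * M 1 j ∈ V) → ∀ i j, M i j ∈ logsIn WQ := by
      intro M hM a ha haV i j
      have h3 := Pool.Agent.N770.entries_in hW (M := M.map (fun x : ℝ => (x : ℂ)))
        (fun i j => by
          apply Lt_log
          rw [Matrix.map_apply, ← Complex.ofReal_exp]
          exact (hM.1 i j).algebraMap) (det_C hM.2.2.2) (row_QC hM) (col_QC hM)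
        (fun i => ((a i : ℚ) : QC ℂ)) (by
          intro h0
          apply ha
          funext i
          have h9 := congrFun h0 i
          change ((a i : ℚ) : QC ℂ) = 0 at h9
          exact Rat.cast_eq_zero.1 h9) (by
          intro j
          have h4 := hmemV _ (haV j)
          rw [Fin.sum_univ_two, Algebra.smul_def, Algebra.smul_def, Matrix.map_apply,
            Matrix.map_apply]
          push_cast at h4
          exact h4) i j
      exact ⟨hM.1 i j, h3⟩
    rintro M hM ⟨a, ha, haV | haV⟩ i j
    · exact rows M hM a ha haV i j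
    · exact rows M.transpose (transpose_counter hM) a ha haV j i

theorem composed_zpow {S : Finset ℕ} {a : ℚ} (_ : a ≠ 0) (ha : ComposedOf S a) (n : ℤ) :
    ComposedOf S (a ^ n) := by
  intro p hp h
  have := Fact.mk hp
  rw [padicValRat.zpow] at h
  exact ha p hp (right_ne_zero_of_mul h)

theorem composed_mul {S : Finset ℕ} {a b : ℚ} (ha0 : a ≠ 0) (hb0 : b ≠ 0) (ha : ComposedOf S a)
    (hb : ComposedOf S b) : ComposedOf S (a * b) := by
  intro p hp h
  have := Fact.mk hp
  rw [padicValRat.mul ha0 hb0] at h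
  by_contra hpS
  have h1 : padicValRat p a = 0 := by
    by_contra h1
    exact hpS (ha p hp h1)
  have h2 : padicValRat p b = 0 := by
    by_contra h2
    exact hpS (hb p hp h2)
  rw [h1, h2, add_zero] at h
  exact h rfl

/-- every rational number is composed of finitely many primes -/
theorem exists_composed (a : ℚ) : ∃ S : Finset ℕ, ComposedOf S a := by
  refine ⟨a.num.natAbs.primeFactors ∪ a.den.primeFactors, fun p hp h => ?_⟩
  by_contra hpS
  rw [Finset.mem_union, not_or] at hpS
  apply h
  have := Fact.mk hp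
  rw [padicValRat_def]
  have h1 : padicValInt p a.num = 0 := by
    rw [padicValInt, padicValNat.eq_zero_iff]
    by_cases h0 : a.num.natAbs = 0
    · exact Or.inr (Or.inl h0)
    · right; right
      intro hd
      exact hpS.1 (Nat.mem_primeFactors.2 ⟨hp, hd, h0⟩)
  have h2 : padicValNat p a.den = 0 := by
    rw [padicValNat.eq_zero_iff]
    right; right
    intro hd
    exact hpS.2 (Nat.mem_primeFactors.2 ⟨hp, hd, a.den_pos.ne'⟩)
  rw [h1, h2]
  simp

/-- the rational numbers with logarithms in a space of finite dimension are composed of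
finitely many primes -/
theorem finite_primes (W : Submodule ℚ ℝ) [FiniteDimensional ℚ W] :
    ∃ S : Finset ℕ, ∀ a : ℚ, 0 < a → Real.log a ∈ W → ComposedOf S a := by
  classical
  set B : Set ℝ := {z | ∃ a : ℚ, 0 < a ∧ z = Real.log a ∧ z ∈ W} with hB
  obtain ⟨b, hbB, hspan, hli⟩ := exists_linearIndependent ℚ B
  have hbW : ∀ z ∈ b, z ∈ W := fun z hz => by
    obtain ⟨a, _, _, h⟩ := hbB hz
    exact h
  have hfin : b.Finite := by
    have h1 : LinearIndependent ℚ (fun z : b => (⟨z, hbW z z.2⟩ : W)) :=
      LinearIndependent.of_comp W.subtype hli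
    have h2 := h1.finite
    exact h2
  have hex : ∀ z ∈ b, ∃ a : ℚ, 0 < a ∧ z = Real.log a := fun z hz => by
    obtain ⟨a, h1, h2, _⟩ := hbB hz
    exact ⟨a, h1, h2⟩
  choose! f hf using hex
  choose T hT using exists_composed
  set S : Finset ℕ := hfin.toFinset.biUnion fun z => T (f z) with hS
  have key : ∀ z ∈ Submodule.span ℚ b, ∃ k : ℕ, 0 < k ∧ ∃ r : ℚ, 0 < r ∧ ComposedOf S r ∧
      (k : ℝ) * z = Real.log r := by
    intro z hz
    refine Submodule.span_induction (p := fun z _ => ∃ k : ℕ, 0 < k ∧ ∃ r : ℚ, 0 < r ∧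
      ComposedOf S r ∧ (k : ℝ) * z = Real.log r) ?_ ?_ ?_ ?_ hz
    · intro z hz
      refine ⟨1, one_pos, f z, (hf z hz).1, ?_, by rw [Nat.cast_one, one_mul]; exact (hf z hz).2⟩
      intro p hp h
      rw [hS, Finset.mem_biUnion]
      exact ⟨z, hfin.mem_toFinset.2 hz, hT _ p hp h⟩
    · refine ⟨1, one_pos, 1, one_pos, ?_, by simp⟩
      intro p hp h
      exfalso
      exact h padicValRat.one
    · rintro x y - - ⟨k, hk, r, hr, hrS, h1⟩ ⟨k', hk', r', hr', hrS', h1'⟩
      refine ⟨k * k', Nat.mul_pos hk hk', r ^ (k' : ℤ) * r' ^ (k : ℤ),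
        mul_pos (zpow_pos hr _) (zpow_pos hr' _), composed_mul (zpow_pos hr _).ne'
          (zpow_pos hr' _).ne' (composed_zpow hr.ne' hrS _) (composed_zpow hr'.ne' hrS' _), ?_⟩
      have hr0 : (r : ℝ) ≠ 0 := by exact_mod_cast hr.ne'
      have hr0' : (r' : ℝ) ≠ 0 := by exact_mod_cast hr'.ne'
      push_cast
      rw [Real.log_mul (zpow_ne_zero _ hr0) (zpow_ne_zero _ hr0'), Real.log_zpow, Real.log_zpow,
        ← h1, ← h1']
      push_cast
      ring
    · rintro c x - ⟨k, hk, r, hr, hrS, h1⟩
      refine ⟨k * c.den, Nat.mul_pos hk c.den_pos, r ^ c.num, zpow_pos hr _,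
        composed_zpow hr.ne' hrS _, ?_⟩
      have h5 : (c.den : ℝ) * (c : ℝ) = c.num := by
        exact_mod_cast Rat.den_mul_eq_num c
      push_cast
      rw [Real.log_zpow, ← h1, Rat.smul_def]
      linear_combination (k : ℝ) * x * h5
  refine ⟨S, fun a ha haW p hp hpa => ?_⟩
  have haB : Real.log a ∈ Submodule.span ℚ b := by
    rw [hspan]
    exact Submodule.subset_span ⟨a, ha, rfl, haW⟩
  obtain ⟨k, hk, r, hr, hrS, h1⟩ := key _ haB
  have h2 : a ^ k = r := by
    have h3 : Real.log ((a : ℝ) ^ k) = Real.log r := by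
      rw [Real.log_pow]
      exact h1
    have ha' : (0 : ℝ) < a := by exact_mod_cast ha
    have hr' : (0 : ℝ) < r := by exact_mod_cast hr
    have h4 := Real.log_injOn_pos (Set.mem_Ioi.2 (pow_pos ha' k)) (Set.mem_Ioi.2 hr') h3
    exact_mod_cast h4
  apply hrS p hp
  have := Fact.mk hp
  rw [← h2, padicValRat.pow]
  exact mul_ne_zero (by exact_mod_cast hk.ne') hpa

/-- **Main result.** -/
theorem result :
    (∀ V : Submodule ℚ ℝ, FiniteDimensional ℚ V → (∀ v ∈ V, IsAlgebraic ℚ (Real.exp v)) →
      ∃ W : Submodule ℚ ℝ, FiniteDimensional ℚ W ∧ V ≤ W ∧ (∀ w ∈ W, IsAlgebraic ℚ (Real.exp w)) ∧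
        finrank ℚ W ≤ finrank ℚ V ^ 2 ∧
        ∀ M : Matrix (Fin 2) (Fin 2) ℝ, IsCounterexample M →
          (∃ a : Fin 2 → ℚ, a ≠ 0 ∧ ((∀ j, (a 0 : ℝ) * M 0 j + a 1 * M 1 j ∈ V) ∨
            ∀ i, (a 0 : ℝ) * M i 0 + a 1 * M i 1 ∈ V)) →
          ∀ i j, M i j ∈ W) ∧
    ∀ S : Finset ℕ, ∃ S' : Finset ℕ, ∀ A : Matrix (Fin 2) (Fin 2) ℚ, (∀ i j, 0 < A i j) →
      IsCounterexample (Matrix.of fun i j => Real.log (A i j)) →
      ((∃ i, ∀ j, ComposedOf S (A i j)) ∨ ∃ j, ∀ i, ComposedOf S (A i j)) →
      ∀ i j, ComposedOf S' (A i j) := by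
  classical
  refine ⟨fun V hVf hV => one_row V hV, fun S => ?_⟩
  -- the space of the logarithms of the numbers composed of primes of `S`
  set V : Submodule ℚ ℝ := Submodule.span ℚ ((fun p : ℕ => Real.log p) '' (S : Set ℕ)) with hVdef
  have hVf : FiniteDimensional ℚ V :=
    FiniteDimensional.span_of_finite ℚ (Set.Finite.image _ S.finite_toSet)
  have hV : ∀ v ∈ V, IsAlgebraic ℚ (Real.exp v) := by
    have h1 : V ≤ logsIn ⊤ := by
      rw [hVdef, Submodule.span_le]
      rintro _ ⟨p, -, rfl⟩
      refine ⟨?_, Submodule.mem_top⟩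
      change IsAlgebraic ℚ (Real.exp (Real.log (p : ℝ)))
      rcases Nat.eq_zero_or_pos p with rfl | hp
      · rw [Nat.cast_zero, Real.log_zero, Real.exp_zero]
        exact isAlgebraic_one
      · rw [Real.exp_log (by exact_mod_cast hp)]
        exact isAlgebraic_natCast p
    exact fun v hv => (h1 hv).1
  have hnat : ∀ n : ℕ, 0 < n → (∀ p : ℕ, p.Prime → p ∣ n → p ∈ S) → Real.log n ∈ V := by
    intro n
    induction n using Nat.strong_induction_on with
    | _ n ih =>
      intro hn hp
      by_cases h1 : n = 1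
      · rw [h1, Nat.cast_one, Real.log_one]
        exact V.zero_mem
      · obtain ⟨m, hm⟩ := Nat.minFac_dvd n
        have hpr := Nat.minFac_prime h1
        have hm0 : 0 < m := by
          rcases Nat.eq_zero_or_pos m with h0 | h0
          · rw [h0, mul_zero] at hm
            omega
          · exact h0
        have hmn : m < n := by
          have := hpr.two_le
          nlinarith
        have h2 : Real.log n = Real.log (n.minFac) + Real.log m := by
          rw [← Real.log_mul (by exact_mod_cast hpr.ne_zero) (by exact_mod_cast hm0.ne')]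
          congr 1
          exact_mod_cast hm
        rw [h2]
        refine V.add_mem (Submodule.subset_span ⟨n.minFac, ?_, rfl⟩) (ih m hmn hm0 ?_)
        · exact hp _ hpr (Nat.minFac_dvd n)
        · intro p hpp hpm
          exact hp p hpp (hm ▸ hpm.mul_left _)
  have hlogV : ∀ a : ℚ, 0 < a → ComposedOf S a → Real.log a ∈ V := by
    intro a ha haS
    have hnum : 0 < a.num := Rat.num_pos.2 ha
    have hcop := a.reduced
    have h1 : Real.log a = Real.log (a.num.natAbs : ℕ) - Real.log (a.den : ℕ) := by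
      rw [← Real.log_div (by exact_mod_cast (Int.natAbs_pos.2 hnum.ne').ne')
        (by exact_mod_cast a.den_pos.ne')]
      congr 1
      have h2 : ((a.num.natAbs : ℕ) : ℤ) = a.num := Int.natAbs_of_nonneg hnum.le
      have h3 : ((a.num.natAbs : ℕ) : ℝ) = (a.num : ℝ) := by rw [← Int.cast_natCast, h2]
      rw [h3]
      exact_mod_cast (Rat.num_div_den a).symm
    rw [h1]
    refine V.sub_mem (hnat _ (Int.natAbs_pos.2 hnum.ne') fun p hp hpd => ?_)
      (hnat _ a.den_pos fun p hp hpd => ?_)
    · apply haS p hp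
      have := Fact.mk hp
      have h4 : ¬ p ∣ a.den := fun h => by
        have := Nat.dvd_gcd hpd h
        rw [hcop] at this
        exact hp.one_lt.ne' (Nat.dvd_one.1 this)
      rw [padicValRat_def, padicValNat.eq_zero_of_not_dvd h4, padicValInt]
      have h5 : padicValNat p a.num.natAbs ≠ 0 := by
        rw [Ne, padicValNat.eq_zero_iff]
        push Not
        exact ⟨hp.one_lt.ne', (Int.natAbs_pos.2 hnum.ne').ne', hpd⟩
      simpa using h5
    · apply haS p hp
      have := Fact.mk hp
      have h4 : ¬ p ∣ a.num.natAbs := fun h => by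
        have := Nat.dvd_gcd h hpd
        rw [hcop] at this
        exact hp.one_lt.ne' (Nat.dvd_one.1 this)
      rw [padicValRat_def, padicValInt, padicValNat.eq_zero_of_not_dvd h4]
      have h5 : padicValNat p a.den ≠ 0 := by
        rw [Ne, padicValNat.eq_zero_iff]
        push Not
        exact ⟨hp.one_lt.ne', a.den_pos.ne', hpd⟩
      simpa using h5
  obtain ⟨W, hWf, -, -, -, hW⟩ := one_row V hV
  obtain ⟨S', hS'⟩ := finite_primes W
  refine ⟨S', fun A hA hAc hAS i j => hS' _ (hA i j) ?_⟩
  refine hW _ hAc ?_ i j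
  rcases hAS with ⟨i0, h⟩ | ⟨j0, h⟩
  · refine ⟨Pi.single i0 1, by simp, Or.inl fun j => ?_⟩
    have h1 := hlogV _ (hA i0 j) (h j)
    fin_cases i0
    · simpa using h1
    · simpa using h1
  · refine ⟨Pi.single j0 1, by simp, Or.inr fun i => ?_⟩
    have h1 := hlogV _ (hA i j0) (h i)
    fin_cases j0
    · simpa using h1
    · simpa using h1

end Pool.Agent.Results.MP_bbc1fa_nt.OneRowInGroup
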