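import Mathlib
import Pool.Agent.J4.H56.Row
import Pool.Agent.J4.H56.Homog

/-!
# The four exponentials conjecture in groups of rank three

We call `(x, y)` a first row if there is a `2 × 2` matrix of logarithms of positive rational (or
algebraic) numbers, with first row `(x, y)` and ARBITRARY second row, which has determinant `0`,
`ℚ`-linearly independent rows and `ℚ`-linearly independent columns.  The four exponentials conjecture
says that there are no first rows.

Let `q_1, …, q_N` be positive rational (or algebraic) numbers with `ℚ`-linearly independent logarithms,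
and let `G` be the group which they generate.  We prove that the exceptional pairs in `G` are never
Zariski dense when `N ≥ 3`:

1. `N ≥ 3`: the exponents of the exceptional pairs satisfy a nontrivial polynomial equation in `2 N`
   variables, and at most `C H ^ (2 N - 1)` of the `(2 H + 1) ^ (2 N)` pairs of elements of `G` with
   exponents of absolute value at most `H` are exceptional.
2. `N = 3`: whether `(log a, log b)` is a first row, for `a, b` in the division group of `G`, depends
   only on the rank two subgroup which they generate (up to finite index), that is on a rational point of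
   the projective plane, the cross product of the exponent vectors.  The exceptional points lie on a plane
   algebraic curve defined over `ℚ`: there is a nonzero homogeneous polynomial with rational coefficients
   which vanishes at the cross products of the exponent vectors of all first rows.  At most
   `C H ^ 4 (1 + log H)` of the `(2 H + 1) ^ 6` pairs of elements of `G` with exponents of absolute value
   at most `H` are exceptional (ONE exceptional pair would give at least `c H ^ 4` exceptional pairs).

The rank three is the smallest possible: in a group of rank two there is only one subgroup of rank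
two up to finite index, and the question whether it is exceptional is the conjecture itself.

The proof: in an ultrapower one gets a family of first rows `(x, y)` with two derivations `∂, ∂'` of the
field such that `∂ x = v = ∂' y`, `∂ y = ∂' x = 0`, and a transcendental `t` with `t x`, `t y` in the space
`L` of logarithms.  The relations `x A + y B + v C = 0` with `A, B, C` in `L` form a space of dimension at
most `6`, by the strong six exponentials theorem (linear subgroup theorem) for hyperplanes; it contains
the three trivial relations, the relation `x (t y) = y (t x)` and its first and second derivatives.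
Comparing them one finds that `t` and `v / y` are rational functions of `x / y`, and a
differential argument gives a contradiction.
-/

set_option autoImplicit false

namespace Pool.Agent.Results.MP_bbc1fa_nt.RankThree

open Module
open Pool.Agent.J4.H56
open Pool.Agent.Y787 (QC)
open Pool.Agent.R350 (BadRow)
open Pool.Agent.H301R2.SSE (Lt Lt_log)

/-- `(x, y)` is the first row of a `2 × 2` matrix of real logarithms of positive algebraic numbers with
determinant `0`, `ℚ`-linearly independent rows and `ℚ`-linearly independent columns -/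
def IsFirstRow (x y : ℝ) : Prop :=
  ∃ M : Matrix (Fin 2) (Fin 2) ℝ, (∀ i j, IsAlgebraic ℚ (Real.exp (M i j))) ∧
    M 0 0 = x ∧ M 0 1 = y ∧
    LinearIndependent ℚ (fun i : Fin 2 => fun j : Fin 2 => M i j) ∧
    LinearIndependent ℚ (fun j : Fin 2 => fun i : Fin 2 => M i j) ∧ M.det = 0

/-- the embedding of the reals -/
noncomputable def φ : ℝ →ₗ[ℚ] ℂ := (Complex.ofRealAm.toLinearMap).restrictScalars ℚ

theorem φ_inj : Function.Injective φ := fun a b h => by
  change (a : ℂ) = (b : ℂ) at h
  exact_mod_cast h

/-- Baker's theorem for two logarithms -/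
theorem baker_two {x y : ℝ} (hx : IsAlgebraic ℚ (Real.exp x)) (hy : IsAlgebraic ℚ (Real.exp y))
    (h : LinearIndependent ℚ ![x, y]) (s t : algebraicClosure ℚ ℂ)
    (h0 : (s : ℂ) * x + t * y = 0) : s = 0 ∧ t = 0 := by
  have h1 : LinearIndependent ℚ (fun j : Fin 2 => ((![x, y] j : ℝ) : ℂ)) :=
    h.map' φ (LinearMap.ker_eq_bot.2 φ_inj)
  have h2 := Pool.Agent.H297R2.baker_inhom (fun j : Fin 2 => ((![x, y] j : ℝ) : ℂ)) (by
      intro j
      rw [← Complex.ofReal_exp]
      fin_cases j
      · exact hx.algebraMap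
      · exact hy.algebraMap) h1 0 isAlgebraic_zero ![(s : ℂ), t] (by
      intro j
      fin_cases j
      · exact mem_algebraicClosure_iff.1 s.2
      · exact mem_algebraicClosure_iff.1 t.2) (by
      rw [Fin.sum_univ_two, zero_add]
      exact h0)
  exact ⟨Subtype.ext (h2.2 0), Subtype.ext (h2.2 1)⟩

theorem badRow_of {x y : ℝ} (h : IsFirstRow x y) : BadRow Lt (x : ℂ) (y : ℂ) := by
  obtain ⟨M, hM, rfl, rfl, hr, hc, hdet⟩ := h
  have hdet' : M 0 0 * M 1 1 = M 0 1 * M 1 0 := by
    rw [Matrix.det_fin_two] at hdet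
    linear_combination hdet
  have h1 := Pool.Agent.R350.row_li M hdet' hr hc
  have h2 := Pool.Agent.R350.row_li M.transpose (by
    simp only [Matrix.transpose_apply]
    linear_combination hdet') hc hr
  have e1 : (fun j : Fin 2 => M 0 j) = ![M 0 0, M 0 1] := by
    funext j; fin_cases j <;> rfl
  have e2 : (fun j : Fin 2 => M.transpose 0 j) = ![M 0 0, M 1 0] := by
    funext j; fin_cases j <;> rfl
  rw [e1] at h1
  rw [e2] at h2
  have hmem : ∀ i j, (M i j : ℂ) ∈ Lt := fun i j =>
    Lt_log (by
      rw [← Complex.ofReal_exp]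
      exact (hM i j).algebraMap)
  refine ⟨_, hmem 1 0, _, hmem 1 1, by exact_mod_cast hdet', fun s t h3 _ => ?_,
    fun s t h3 _ => ?_⟩
  · exact baker_two (hM 0 0) (hM 1 0) h2 s t h3
  · exact baker_two (hM 0 0) (hM 0 1) h1 s t h3

/-- the entries of a first row are independent -/
theorem li_of {x y : ℝ} (h : IsFirstRow x y) (s t : ℚ) (hst : (s : ℝ) * x + t * y = 0) :
    s = 0 ∧ t = 0 := by
  obtain ⟨M, hM, rfl, rfl, hr, hc, hdet⟩ := h
  have hdet' : M 0 0 * M 1 1 = M 0 1 * M 1 0 := by
    rw [Matrix.det_fin_two] at hdet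
    linear_combination hdet
  have h1 := Pool.Agent.R350.row_li M hdet' hr hc
  have e1 : (fun j : Fin 2 => M 0 j) = ![M 0 0, M 0 1] := by
    funext j; fin_cases j <;> rfl
  rw [e1, LinearIndependent.pair_iff] at h1
  exact h1 s t (by rw [Rat.smul_def, Rat.smul_def]; exact hst)

/-- finiteness of boxes -/
theorem box_finite {σ : Type} [Fintype σ] (H : ℕ) (S : Set (σ → ℤ)) :
    {a : σ → ℤ | (∀ j, |a j| ≤ H) ∧ a ∈ S}.Finite := by
  classical
  have h1 : ((Fintype.piFinset fun _ : σ => Finset.Icc (-(H : ℤ)) H : Finset (σ → ℤ)) :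
      Set (σ → ℤ)).Finite := Finset.finite_toSet _
  refine h1.subset fun a ha => ?_
  rw [Finset.mem_coe, Fintype.mem_piFinset]
  intro j
  rw [Finset.mem_Icc, ← abs_le]
  exact ha.1 j

section logs

variable {N : ℕ} {q : Fin N → ℝ}

theorem mem_log (hq : ∀ j, 0 < q j ∧ IsAlgebraic ℚ (q j)) (j : Fin N) :
    (Real.log (q j) : ℂ) ∈ Lt := Lt_log (by
  rw [← Complex.ofReal_exp, Real.exp_log (hq j).1]
  exact (hq j).2.algebraMap)

theorem li_log (hq : ∀ j, 0 < q j ∧ IsAlgebraic ℚ (q j))
    (hli : LinearIndependent ℚ (fun j => Real.log (q j))) :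
    LinearIndependent (QC ℂ) (fun j => (Real.log (q j) : ℂ)) := by
  have halg : ∀ j, IsAlgebraic ℚ (Complex.exp (Real.log (q j) : ℂ)) := fun j => by
    rw [← Complex.ofReal_exp, Real.exp_log (hq j).1]
    exact (hq j).2.algebraMap
  have hliC : LinearIndependent ℚ (fun j => (Real.log (q j) : ℂ)) :=
    hli.map' φ (LinearMap.ker_eq_bot.2 φ_inj)
  rw [Fintype.linearIndependent_iff]
  intro g hg
  have h1 := Pool.Agent.H297R2.baker_inhom (fun j => (Real.log (q j) : ℂ)) halg hliC 0
    isAlgebraic_zero (fun j => (g j : ℂ)) (fun j => mem_algebraicClosure_iff.1 (g j).2) (by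
      rw [zero_add, ← hg]
      exact Finset.sum_congr rfl fun j _ => by rw [Algebra.smul_def]; rfl)
  exact fun j => Subtype.ext (h1.2 j)

theorem log_prod' (hq : ∀ j, 0 < q j ∧ IsAlgebraic ℚ (q j)) (a : Fin N → ℤ) :
    Real.log (∏ j, q j ^ a j) = ∑ j, ((a j : ℚ) : ℝ) * Real.log (q j) := by
  rw [Real.log_prod (fun j _ => (zpow_pos (hq j).1 _).ne')]
  refine Finset.sum_congr rfl fun j _ => ?_
  rw [Real.log_zpow]
  push_cast
  rfl

end logs

/-- rank three, polynomial over the algebraic numbers -/
theorem curve (q : Fin 3 → ℝ) (hq : ∀ j, 0 < q j ∧ IsAlgebraic ℚ (q j))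
    (hli : LinearIndependent ℚ (fun j => Real.log (q j))) :
    ∃ P : MvPolynomial (Fin 3) (QC ℂ), P ≠ 0 ∧ ∀ a b : Fin 3 → ℚ,
      IsFirstRow (∑ j, (a j : ℝ) * Real.log (q j)) (∑ j, (b j : ℝ) * Real.log (q j)) →
        ∀ (g : ℚ) (p : Fin 3 → ℚ), g ≠ 0 → (∀ j, crossProduct a b j = g * p j) →
          MvPolynomial.eval (fun j => (p j : QC ℂ)) P = 0 := by
  classical
  set l : Fin 3 → ℂ := fun j => (Real.log (q j) : ℂ) with hl
  obtain ⟨P, hP, h⟩ := plane_curve (Lt := Lt) l (mem_log hq) (li_log hq hli)
  refine ⟨MvPolynomial.X 2 * P, mul_ne_zero (MvPolynomial.X_ne_zero _) hP,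
    fun a b hab g p hg hgp => ?_⟩
  rw [map_mul, MvPolynomial.eval_X]
  by_cases hp2 : (p 2 : QC ℂ) = 0
  · rw [hp2, zero_mul]
  · rw [h (fun j => (p j : QC ℂ)) hp2, mul_zero]
    have hbad := badRow_of hab
    have hgp0 := hgp 0
    have hgp1 := hgp 1
    have hgp2 := hgp 2
    rw [cross_apply] at hgp0 hgp1 hgp2
    simp only [Fin.isValue, Matrix.cons_val_zero, Matrix.cons_val_one, Matrix.cons_val] at hgp0 hgp1 hgp2
    have hg' : (g : QC ℂ) ≠ 0 := by exact_mod_cast hg
    have hgc : (g : ℂ) ≠ 0 := by exact_mod_cast hg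
    have h1 := badRow_col hbad ((b 1 / g : ℚ) : QC ℂ) ((-a 1 / g : ℚ) : QC ℂ)
      ((-b 0 / g : ℚ) : QC ℂ) ((a 0 / g : ℚ) : QC ℂ) (by
        have h2 : (b 1 / g) * (a 0 / g) - (-a 1 / g) * (-b 0 / g) ≠ 0 := by
          have h3 : (b 1 / g) * (a 0 / g) - (-a 1 / g) * (-b 0 / g) = p 2 / g := by
            field_simp
            linear_combination hgp2
          rw [h3]
          refine div_ne_zero ?_ hg
          intro h0
          exact hp2 (by rw [h0]; exact_mod_cast rfl)
        exact_mod_cast h2)
    have c0 : ((a 1 : ℂ) * b 2 - a 2 * b 1) = g * p 0 := by exact_mod_cast hgp0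
    have c1 : ((a 2 : ℂ) * b 0 - a 0 * b 2) = g * p 1 := by exact_mod_cast hgp1
    have c2 : ((a 0 : ℂ) * b 1 - a 1 * b 0) = g * p 2 := by exact_mod_cast hgp2
    convert h1 using 1
    · rw [Fin.sum_univ_three, Fin.sum_univ_three]
      push_cast
      field_simp
      linear_combination (-(l 0)) * c2 + (l 2) * c0
    · rw [Fin.sum_univ_three, Fin.sum_univ_three]
      push_cast
      field_simp
      linear_combination (-(l 1)) * c2 + (l 2) * c1

/-- **Main result.** -/
theorem result :
    (∀ N : ℕ, 3 ≤ N → ∀ q : Fin N → ℝ, (∀ j, 0 < q j ∧ IsAlgebraic ℚ (q j)) →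
      LinearIndependent ℚ (fun j => Real.log (q j)) →
      (∃ P : MvPolynomial (Fin 2 × Fin N) ℚ, P ≠ 0 ∧ ∀ a : Fin 2 × Fin N → ℚ,
        IsFirstRow (∑ j, (a (0, j) : ℝ) * Real.log (q j)) (∑ j, (a (1, j) : ℝ) * Real.log (q j)) →
          MvPolynomial.eval a P = 0) ∧
      ∃ C : ℕ, ∀ H : ℕ, 1 ≤ H →
        Set.ncard {a : Fin 2 × Fin N → ℤ | (∀ x, |a x| ≤ H) ∧
          IsFirstRow (Real.log (∏ j, q j ^ a (0, j))) (Real.log (∏ j, q j ^ a (1, j)))} ≤
          C * H ^ (2 * N - 1)) ∧
    (∀ q : Fin 3 → ℝ, (∀ j, 0 < q j ∧ IsAlgebraic ℚ (q j)) →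
      LinearIndependent ℚ (fun j => Real.log (q j)) →
      (∃ (d : ℕ) (P : MvPolynomial (Fin 3) ℚ), P ≠ 0 ∧ P.IsHomogeneous d ∧ ∀ a b : Fin 3 → ℚ,
        IsFirstRow (∑ j, (a j : ℝ) * Real.log (q j)) (∑ j, (b j : ℝ) * Real.log (q j)) →
          MvPolynomial.eval (crossProduct a b) P = 0) ∧
      ∃ C : ℕ, ∀ H : ℕ, 1 ≤ H →
        Set.ncard {a : Fin 2 × Fin 3 → ℤ | (∀ x, |a x| ≤ H) ∧
          IsFirstRow (Real.log (∏ j, q j ^ a (0, j))) (Real.log (∏ j, q j ^ a (1, j)))} ≤
          C * (H ^ 4 * (Nat.log 2 H + 1))) := by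
  classical
  refine ⟨?_, ?_⟩
  · intro N hN q hq hli
    obtain ⟨P, hP, h⟩ := row_hyper (Lt := Lt) hN (fun j => (Real.log (q j) : ℂ)) (mem_log hq)
      (li_log hq hli)
    have h' : ∀ a : Fin 2 × Fin N → ℚ,
        IsFirstRow (∑ j, (a (0, j) : ℝ) * Real.log (q j)) (∑ j, (a (1, j) : ℝ) * Real.log (q j)) →
          MvPolynomial.eval (fun k => (a (finProdFinEquiv.symm k) : QC ℂ)) P = 0 := by
      intro a ha
      refine h _ ?_
      have h1 := badRow_of ha
      convert h1 using 1
      · push_cast
        refine Finset.sum_congr rfl fun j _ => ?_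
        rw [Equiv.symm_apply_apply]
      · push_cast
        refine Finset.sum_congr rfl fun j _ => ?_
        rw [Equiv.symm_apply_apply]
    refine ⟨?_, ?_⟩
    · obtain ⟨R, hR, hR'⟩ := descend P hP
      refine ⟨MvPolynomial.rename finProdFinEquiv.symm R, ?_, fun a ha => ?_⟩
      · intro h0
        exact hR (MvPolynomial.rename_injective _ finProdFinEquiv.symm.injective
          (by rw [h0, map_zero]))
      · rw [MvPolynomial.eval_rename]
        exact hR' _ (h' a ha)
    · set S : Set (Fin 2 × Fin N → ℤ) := {a : Fin 2 × Fin N → ℤ |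
        IsFirstRow (Real.log (∏ j, q j ^ a (0, j))) (Real.log (∏ j, q j ^ a (1, j)))} with hS
      refine ⟨P.totalDegree * 3 ^ (2 * N - 1), fun H hH => ?_⟩
      have hfin := box_finite H S
      change Set.ncard {a : Fin 2 × Fin N → ℤ | (∀ x, |a x| ≤ H) ∧ a ∈ S} ≤ _
      rw [Set.ncard_eq_toFinset_card _ hfin]
      let g : (Fin 2 × Fin N → ℤ) → (Fin (2 * N) → ℤ) := fun a z => a (finProdFinEquiv.symm z)
      have hg : Function.Injective g := by
        intro a a' h
        funext x
        have := congrFun h (finProdFinEquiv x)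
        simp only [g, Equiv.symm_apply_apply] at this
        exact this
      rw [← Finset.card_image_of_injective _ hg]
      have h2 := sz P hP H (Finset.image g hfin.toFinset) (by
        intro a ha
        obtain ⟨A, hA, rfl⟩ := Finset.mem_image.1 ha
        rw [Set.Finite.mem_toFinset] at hA
        refine ⟨fun j => hA.1 _, ?_⟩
        have hAS := hA.2
        rw [hS, Set.mem_ofPred_eq, log_prod' hq, log_prod' hq] at hAS
        have h3 := h' (fun x => (A x : ℚ)) hAS
        rw [← h3]
        congr 2) (by omega)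
      calc (Finset.image g hfin.toFinset).card ≤ P.totalDegree * (2 * H + 1) ^ (2 * N - 1) := h2
        _ ≤ P.totalDegree * (3 * H) ^ (2 * N - 1) :=
          Nat.mul_le_mul_left _ (Nat.pow_le_pow_left (by omega) _)
        _ = P.totalDegree * 3 ^ (2 * N - 1) * H ^ (2 * N - 1) := by
          rw [mul_pow, mul_assoc]
  · intro q hq hli
    obtain ⟨P, hP, h⟩ := curve q hq hli
    refine ⟨?_, ?_⟩
    · obtain ⟨R, hR, hR'⟩ := descend P hP
      obtain ⟨d, R₁, hR1, hR2, hR3⟩ := homog R hR
      refine ⟨d, R₁, hR1, hR2, fun a b hab => hR3 _ fun g hg => hR' _ ?_⟩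
      refine h a b hab g⁻¹ _ (inv_ne_zero hg) fun j => ?_
      rw [inv_mul_cancel_left₀ hg]
    · set S : Set (Fin 2 × Fin 3 → ℤ) := {a : Fin 2 × Fin 3 → ℤ |
        IsFirstRow (Real.log (∏ j, q j ^ a (0, j))) (Real.log (∏ j, q j ^ a (1, j)))} with hS
      obtain ⟨C, hC⟩ := count_pairs P hP S (by
        intro A hA
        rw [hS, Set.mem_ofPred_eq, log_prod' hq, log_prod' hq] at hA
        have hI : Indep (fun j => A (0, j)) (fun j => A (1, j)) := by
          intro s t hst
          have h1 := li_of hA (s : ℚ) (t : ℚ) (by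
            rw [Finset.mul_sum, Finset.mul_sum, ← Finset.sum_add_distrib]
            refine Finset.sum_eq_zero fun j _ => ?_
            have h2 : (s : ℝ) * A (0, j) + t * A (1, j) = 0 := by exact_mod_cast hst j
            push_cast
            linear_combination Real.log (q j) * h2)
          exact ⟨by exact_mod_cast h1.1, by exact_mod_cast h1.2⟩
        refine ⟨hI, ?_⟩
        set c : Fin 3 → ℤ := crossProduct (fun j => A (0, j)) (fun j => A (1, j)) with hc
        have e0 : c 0 = A (0, 1) * A (1, 2) - A (0, 2) * A (1, 1) := by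
          rw [hc, cross_apply]; rfl
        have e1 : c 1 = A (0, 2) * A (1, 0) - A (0, 0) * A (1, 2) := by
          rw [hc, cross_apply]; rfl
        have e2 : c 2 = A (0, 0) * A (1, 1) - A (0, 1) * A (1, 0) := by
          rw [hc, cross_apply]; rfl
        have hc0 : c ≠ 0 := by
          intro h0
          have g0 : c 0 = 0 := congrFun h0 0
          have g1 : c 1 = 0 := congrFun h0 1
          have g2 : c 2 = 0 := congrFun h0 2
          rw [e0] at g0
          rw [e1] at g1
          rw [e2] at g2
          have h1 : ∀ i, A (0, i) = 0 := by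
            intro i
            have h2 : A (1, i) = 0 ∧ -A (0, i) = 0 := hI (A (1, i)) (-A (0, i)) (by
              intro j
              fin_cases i <;> fin_cases j <;> simp <;> linarith)
            exact neg_eq_zero.1 h2.2
          have h2 := hI 1 0 (fun j => by simp [h1 j])
          exact one_ne_zero h2.1
        obtain ⟨g, p, hg, hp, hgp⟩ := exists_prim c hc0
        have hpg : ∀ x : ℤ, g * x = 0 → x = 0 := fun x hx => (mul_eq_zero.1 hx).resolve_left hg
        refine ⟨p, hp, hpg _ ?_, hpg _ ?_, ?_⟩
        · rw [Finset.mul_sum, Fin.sum_univ_three]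
          linear_combination (-(A (0, 0))) * hgp 0 - (A (0, 1)) * hgp 1 - (A (0, 2)) * hgp 2 +
            (A (0, 0)) * e0 + (A (0, 1)) * e1 + (A (0, 2)) * e2
        · rw [Finset.mul_sum, Fin.sum_univ_three]
          linear_combination (-(A (1, 0))) * hgp 0 - (A (1, 1)) * hgp 1 - (A (1, 2)) * hgp 2 +
            (A (1, 0)) * e0 + (A (1, 1)) * e1 + (A (1, 2)) * e2
        · have h3 := h _ _ hA (g : ℚ) (fun j => (p j : ℚ)) (by exact_mod_cast hg) (by
            intro j
            have h4 : ((c j : ℤ) : ℚ) = g * p j := by exact_mod_cast hgp j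
            rw [← h4]
            fin_cases j
            · change crossProduct _ _ 0 = ((c 0 : ℤ) : ℚ)
              rw [e0, cross_apply]
              push_cast
              rfl
            · change crossProduct _ _ 1 = ((c 1 : ℤ) : ℚ)
              rw [e1, cross_apply]
              push_cast
              rfl
            · change crossProduct _ _ 2 = ((c 2 : ℤ) : ℚ)
              rw [e2, cross_apply]
              push_cast
              rfl)
          rw [← h3]
          congr 2)
      refine ⟨C, fun H hH => ?_⟩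
      have hfin := box_finite H S
      change Set.ncard {a : Fin 2 × Fin 3 → ℤ | (∀ x, |a x| ≤ H) ∧ a ∈ S} ≤ _
      rw [Set.ncard_eq_toFinset_card _ hfin]
      refine hC H hH _ fun A hA => ?_
      rw [Set.Finite.mem_toFinset] at hA
      exact ⟨hA.2, hA.1⟩

end Pool.Agent.Results.MP_bbc1fa_nt.RankThree
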