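import Mathlib
import Pool.Agent.J4.H56.RT.Space

/-!
# Logarithms of rational numbers whose ratio is a ratio of elements of a space of finite dimension

A counterexample to the four exponentials conjecture is a `2 × 2` matrix of positive rational (or
algebraic) numbers such that the matrix `M` of the logarithms has determinant `0` and `ℚ`-linearly
independent rows and columns. So `M` has a kernel vector `(u, v)` on the left, `u M_0j + v M_1j = 0`, and one
on the right, and `- v / u` is the ratio of the two rows: the exponent `t` with `a_0j = a_1j ^ t`.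

Let `U` be ANY space of complex numbers of finite dimension `d` over the field of algebraic numbers, for
instance the space generated by `1, π, e`.

1. There is one `ℚ`-space `W` of logarithms of positive algebraic numbers, of dimension at most
   `d ^ 2 (d - 1)`, which contains both members of all pairs `x, y` of `ℚ`-linearly independent logarithms of
   positive algebraic numbers with `u x + v y = 0` for some `u, v` in `U`, not both zero (so the ratio of the
   two logarithms is a ratio of elements of `U`), and therefore all the entries of all counterexamples with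
   a kernel vector, on one of the two sides, in `U ^ 2`.
2. There is a finite set `S` of primes such that all multiplicatively independent positive rational numbers
   `a, b` with `u log a + v log b = 0`, `u, v` in `U` not both zero, and all entries of all counterexamples
   of rational numbers with a kernel vector in `U ^ 2`, are composed of primes of `S`.
3. Let `1` be in `T`, a space of dimension `n`. The positive algebraic numbers `a` such that `a ^ t` is
   algebraic for some real irrational `t` in `T` generate a group of rank at most `n (n - 1)`; in other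
   words, among any `n (n - 1) + 1` multiplicatively independent positive algebraic numbers there is one, `a`,
   such that `a ^ t` is transcendental for ALL irrational `t` in `T`. The six exponentials theorem for `1, t`
   is the case `n = 2`. The rational numbers among them are composed of finitely many primes.

The proof: let `τ_i` be a basis of `U`, `u = ∑ a_i τ_i`, `v = ∑ b_i τ_i`. Then the vector of the
`a_i x + b_i y` is a vector of linear forms in logarithms with algebraic coefficients in the hyperplane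
`∑ τ_i z_i = 0`, and by the hyperplane case of the linear subgroup theorem (Waldschmidt, Roy;
`Pool.Agent.Y787.hyperplane`, starting library) these vectors form a space of dimension at most
`d (d - 1)`. By Baker's theorem `x` and `y` are combinations of the coordinates of this vector.
-/

set_option autoImplicit false

namespace Pool.Agent.Results.MP_bbc1fa_nt.RatiosInASpace

open Module
open Pool.Agent.J4.H56.RT

/-- The real matrix `M` is the matrix of the logarithms of a counterexample: the exponentials of the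
entries are algebraic, the rows and the columns are `ℚ`-linearly independent, the determinant is zero. -/
def IsCounterexample (M : Matrix (Fin 2) (Fin 2) ℝ) : Prop :=
  (∀ i j, IsAlgebraic ℚ (Real.exp (M i j))) ∧
    LinearIndependent ℚ (fun i : Fin 2 => fun j : Fin 2 => M i j) ∧
    LinearIndependent ℚ (fun j : Fin 2 => fun i : Fin 2 => M i j) ∧ M.det = 0

/-- The rational number `a` is composed of primes of `S`. -/
def ComposedOf (S : Finset ℕ) (a : ℚ) : Prop := ∀ p : ℕ, p.Prime → padicValRat p a ≠ 0 → p ∈ S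

/-- The ratio of `x` and `y` is a ratio of elements of `U`: `u x + v y = 0` for some `u`, `v` in `U` which
are not both zero. -/
def RatioIn (U : Submodule (algebraicClosure ℚ ℂ) ℂ) (x y : ℝ) : Prop :=
  ∃ u ∈ U, ∃ v ∈ U, (u ≠ 0 ∨ v ≠ 0) ∧ u * x + v * y = 0

/-- The matrix `M` has a kernel vector with both coordinates in `U`, on the left or on the right. -/
def KernelIn (U : Submodule (algebraicClosure ℚ ℂ) ℂ) (M : Matrix (Fin 2) (Fin 2) ℝ) : Prop :=
  ∃ u ∈ U, ∃ v ∈ U, (u ≠ 0 ∨ v ≠ 0) ∧
    ((∀ j, u * M 0 j + v * M 1 j = 0) ∨ ∀ i, u * M i 0 + v * M i 1 = 0)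

theorem transpose_counter {M : Matrix (Fin 2) (Fin 2) ℝ} (h : IsCounterexample M) :
    IsCounterexample M.transpose :=
  ⟨fun i j => h.1 j i, h.2.2.1, h.2.1, by rw [Matrix.det_transpose]; exact h.2.2.2⟩

/-- the two entries of a column are independent -/
theorem col_li {M : Matrix (Fin 2) (Fin 2) ℝ} (h : IsCounterexample M) (j : Fin 2) :
    LinearIndependent ℚ ![M 0 j, M 1 j] := by
  obtain ⟨-, hr, hc, hdet⟩ := h
  rw [Matrix.det_fin_two] at hdet
  rw [Fintype.linearIndependent_iff] at hr hc
  have hcol : ∀ j, M 0 j ≠ 0 ∨ M 1 j ≠ 0 := by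
    intro j
    by_contra hcon
    push Not at hcon
    have h1 := hc (Pi.single j 1) (by
      rw [Fin.sum_univ_two]
      funext i
      obtain ⟨h5, h6⟩ := hcon
      fin_cases j
      · change M 0 0 = 0 at h5
        change M 1 0 = 0 at h6
        fin_cases i
        · simp [h5]
        · simp [h6]
      · change M 0 1 = 0 at h5
        change M 1 1 = 0 at h6
        fin_cases i
        · simp [h5]
        · simp [h6]) j
    rw [Pi.single_eq_same] at h1
    exact one_ne_zero h1
  rw [LinearIndependent.pair_iff]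
  intro a b hab
  rw [Rat.smul_def, Rat.smul_def] at hab
  have hall : ∀ k, (a : ℝ) * M 0 k + b * M 1 k = 0 := by
    intro k
    have h2 : M 0 j * M 1 k = M 0 k * M 1 j := by
      fin_cases j <;> fin_cases k
      · rfl
      · change M 0 0 * M 1 1 = M 0 1 * M 1 0
        linear_combination hdet
      · change M 0 1 * M 1 0 = M 0 0 * M 1 1
        linear_combination -hdet
      · rfl
    rcases hcol j with h3 | h3
    · apply mul_left_cancel₀ h3
      rw [mul_zero]
      linear_combination M 0 k * hab + (b : ℝ) * h2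
    · apply mul_left_cancel₀ h3
      rw [mul_zero]
      linear_combination M 1 k * hab - (a : ℝ) * h2
  have h4 := hr ![a, b] (by
    rw [Fin.sum_univ_two]
    funext k
    have := hall k
    simp only [Matrix.cons_val_zero, Matrix.cons_val_one, Pi.add_apply, Pi.smul_apply, Rat.smul_def,
      Pi.zero_apply]
    exact this)
  exact ⟨h4 0, h4 1⟩

theorem composed_zpow {S : Finset ℕ} {a : ℚ} (_ : a ≠ 0) (ha : ComposedOf S a) (n : ℤ) :
    ComposedOf S (a ^ n) := by
  intro p hp h
  have := Fact.mk hp
  rw [padicValRat.zpow] at h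
  exact ha p hp (right_ne_zero_of_mul h)

theorem composed_mul {S : Finset ℕ} {a b : ℚ} (ha0 : a ≠ 0) (hb0 : b ≠ 0) (ha : ComposedOf S a)
    (hb : ComposedOf S b) : ComposedOf S (a * b) := by
  intro p hp h
  have := Fact.mk hp
  rw [padicValRat.mul ha0 hb0] at h
  by_contra hpS
  have h1 : padicValRat p a = 0 := by
    by_contra h1
    exact hpS (ha p hp h1)
  have h2 : padicValRat p b = 0 := by
    by_contra h2
    exact hpS (hb p hp h2)
  rw [h1, h2, add_zero] at h
  exact h rfl

/-- every rational number is composed of finitely many primes -/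
theorem exists_composed (a : ℚ) : ∃ S : Finset ℕ, ComposedOf S a := by
  refine ⟨a.num.natAbs.primeFactors ∪ a.den.primeFactors, fun p hp h => ?_⟩
  by_contra hpS
  rw [Finset.mem_union, not_or] at hpS
  apply h
  have := Fact.mk hp
  rw [padicValRat_def]
  have h1 : padicValInt p a.num = 0 := by
    rw [padicValInt, padicValNat.eq_zero_iff]
    by_cases h0 : a.num.natAbs = 0
    · exact Or.inr (Or.inl h0)
    · right; right
      intro hd
      exact hpS.1 (Nat.mem_primeFactors.2 ⟨hp, hd, h0⟩)
  have h2 : padicValNat p a.den = 0 := by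
    rw [padicValNat.eq_zero_iff]
    right; right
    intro hd
    exact hpS.2 (Nat.mem_primeFactors.2 ⟨hp, hd, a.den_pos.ne'⟩)
  rw [h1, h2]
  simp

/-- the rational numbers with logarithms in a space of finite dimension are composed of
finitely many primes -/
theorem finite_primes (W : Submodule ℚ ℝ) [FiniteDimensional ℚ W] :
    ∃ S : Finset ℕ, ∀ a : ℚ, 0 < a → Real.log a ∈ W → ComposedOf S a := by
  classical
  set B : Set ℝ := {z | ∃ a : ℚ, 0 < a ∧ z = Real.log a ∧ z ∈ W} with hB
  obtain ⟨b, hbB, hspan, hli⟩ := exists_linearIndependent ℚ B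
  have hbW : ∀ z ∈ b, z ∈ W := fun z hz => by
    obtain ⟨a, _, _, h⟩ := hbB hz
    exact h
  have hfin : b.Finite := by
    have h1 : LinearIndependent ℚ (fun z : b => (⟨z, hbW z z.2⟩ : W)) :=
      LinearIndependent.of_comp W.subtype hli
    have h2 := h1.finite
    exact h2
  have hex : ∀ z ∈ b, ∃ a : ℚ, 0 < a ∧ z = Real.log a := fun z hz => by
    obtain ⟨a, h1, h2, _⟩ := hbB hz
    exact ⟨a, h1, h2⟩
  choose! f hf using hex
  choose T hT using exists_composed
  set S : Finset ℕ := hfin.toFinset.biUnion fun z => T (f z) with hS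
  have key : ∀ z ∈ Submodule.span ℚ b, ∃ k : ℕ, 0 < k ∧ ∃ r : ℚ, 0 < r ∧ ComposedOf S r ∧
      (k : ℝ) * z = Real.log r := by
    intro z hz
    refine Submodule.span_induction (p := fun z _ => ∃ k : ℕ, 0 < k ∧ ∃ r : ℚ, 0 < r ∧
      ComposedOf S r ∧ (k : ℝ) * z = Real.log r) ?_ ?_ ?_ ?_ hz
    · intro z hz
      refine ⟨1, one_pos, f z, (hf z hz).1, ?_, by rw [Nat.cast_one, one_mul]; exact (hf z hz).2⟩
      intro p hp h
      rw [hS, Finset.mem_biUnion]
      exact ⟨z, hfin.mem_toFinset.2 hz, hT _ p hp h⟩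
    · refine ⟨1, one_pos, 1, one_pos, ?_, by simp⟩
      intro p hp h
      exfalso
      exact h padicValRat.one
    · rintro x y - - ⟨k, hk, r, hr, hrS, h1⟩ ⟨k', hk', r', hr', hrS', h1'⟩
      refine ⟨k * k', Nat.mul_pos hk hk', r ^ (k' : ℤ) * r' ^ (k : ℤ),
        mul_pos (zpow_pos hr _) (zpow_pos hr' _), composed_mul (zpow_pos hr _).ne'
          (zpow_pos hr' _).ne' (composed_zpow hr.ne' hrS _) (composed_zpow hr'.ne' hrS' _), ?_⟩
      have hr0 : (r : ℝ) ≠ 0 := by exact_mod_cast hr.ne'
      have hr0' : (r' : ℝ) ≠ 0 := by exact_mod_cast hr'.ne'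
      push_cast
      rw [Real.log_mul (zpow_ne_zero _ hr0) (zpow_ne_zero _ hr0'), Real.log_zpow, Real.log_zpow,
        ← h1, ← h1']
      push_cast
      ring
    · rintro c x - ⟨k, hk, r, hr, hrS, h1⟩
      refine ⟨k * c.den, Nat.mul_pos hk c.den_pos, r ^ c.num, zpow_pos hr _,
        composed_zpow hr.ne' hrS _, ?_⟩
      have h5 : (c.den : ℝ) * (c : ℝ) = c.num := by
        exact_mod_cast Rat.den_mul_eq_num c
      push_cast
      rw [Real.log_zpow, ← h1, Rat.smul_def]
      linear_combination (k : ℝ) * x * h5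
  refine ⟨S, fun a ha haW p hp hpa => ?_⟩
  have haB : Real.log a ∈ Submodule.span ℚ b := by
    rw [hspan]
    exact Submodule.subset_span ⟨a, ha, rfl, haW⟩
  obtain ⟨k, hk, r, hr, hrS, h1⟩ := key _ haB
  have h2 : a ^ k = r := by
    have h3 : Real.log ((a : ℝ) ^ k) = Real.log r := by
      rw [Real.log_pow]
      exact h1
    have ha' : (0 : ℝ) < a := by exact_mod_cast ha
    have hr' : (0 : ℝ) < r := by exact_mod_cast hr
    have h4 := Real.log_injOn_pos (Set.mem_Ioi.2 (pow_pos ha' k)) (Set.mem_Ioi.2 hr') h3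
    exact_mod_cast h4
  apply hrS p hp
  have := Fact.mk hp
  rw [← h2, padicValRat.pow]
  exact mul_ne_zero (by exact_mod_cast hk.ne') hpa

/-- the space for the pairs and the matrices -/
theorem space (U : Submodule (algebraicClosure ℚ ℂ) ℂ) (hU : FiniteDimensional (algebraicClosure ℚ ℂ) U) :
    ∃ W : Submodule ℚ ℝ, FiniteDimensional ℚ W ∧ (∀ w ∈ W, IsAlgebraic ℚ (Real.exp w)) ∧
      finrank ℚ W ≤ finrank (algebraicClosure ℚ ℂ) U ^ 2 * (finrank (algebraicClosure ℚ ℂ) U - 1) ∧
      (∀ x y : ℝ, IsAlgebraic ℚ (Real.exp x) → IsAlgebraic ℚ (Real.exp y) →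
        LinearIndependent ℚ ![x, y] → RatioIn U x y → x ∈ W ∧ y ∈ W) ∧
      ∀ M : Matrix (Fin 2) (Fin 2) ℝ, IsCounterexample M → KernelIn U M → ∀ i j, M i j ∈ W := by
  obtain ⟨h1, h2⟩ := logsIn_finrank (WQ U)
  have hpair : ∀ x y : ℝ, IsAlgebraic ℚ (Real.exp x) → IsAlgebraic ℚ (Real.exp y) →
      LinearIndependent ℚ ![x, y] → RatioIn U x y → x ∈ logsIn (WQ U) ∧ y ∈ logsIn (WQ U) := by
    rintro x y hx hy hli ⟨u, hu, v, hv, huv, h⟩
    obtain ⟨h3, h4⟩ := pair_mem U (Lt_real hx) (Lt_real hy) (baker_two hx hy hli) hu hv huv h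
    exact ⟨⟨hx, h3⟩, ⟨hy, h4⟩⟩
  have rows : ∀ M : Matrix (Fin 2) (Fin 2) ℝ, IsCounterexample M → ∀ u ∈ U, ∀ v ∈ U, (u ≠ 0 ∨ v ≠ 0) →
      (∀ j, u * M 0 j + v * M 1 j = 0) → ∀ i j, M i j ∈ logsIn (WQ U) := by
    intro M hM u hu v hv huv h i j
    obtain ⟨h3, h4⟩ := hpair (M 0 j) (M 1 j) (hM.1 0 j) (hM.1 1 j) (col_li hM j)
      ⟨u, hu, v, hv, huv, h j⟩
    fin_cases i
    · exact h3
    · exact h4
  refine ⟨logsIn (WQ U), h1, fun w hw => hw.1, ?_, hpair, ?_⟩
  · refine h2.trans ((finrank_WQ U).trans (le_of_eq ?_))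
    ring
  · rintro M hM ⟨u, hu, v, hv, huv, h | h⟩ i j
    · exact rows M hM u hu v hv huv h i j
    · exact rows M.transpose (transpose_counter hM) u hu v hv huv h j i

theorem isAlgebraic_exp_log {a : ℚ} (ha : 0 < a) : IsAlgebraic ℚ (Real.exp (Real.log a)) := by
  rw [Real.exp_log (by exact_mod_cast ha)]
  exact isAlgebraic_algebraMap a

/-- **Main result.** Here `U` and `T` are spaces of complex numbers over the field of algebraic numbers. -/
theorem result :
    (∀ U : Submodule (algebraicClosure ℚ ℂ) ℂ, FiniteDimensional (algebraicClosure ℚ ℂ) U →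
      ∃ W : Submodule ℚ ℝ, FiniteDimensional ℚ W ∧ (∀ w ∈ W, IsAlgebraic ℚ (Real.exp w)) ∧
        finrank ℚ W ≤ finrank (algebraicClosure ℚ ℂ) U ^ 2 * (finrank (algebraicClosure ℚ ℂ) U - 1) ∧
        (∀ x y : ℝ, IsAlgebraic ℚ (Real.exp x) → IsAlgebraic ℚ (Real.exp y) →
          LinearIndependent ℚ ![x, y] → RatioIn U x y → x ∈ W ∧ y ∈ W) ∧
        ∀ M : Matrix (Fin 2) (Fin 2) ℝ, IsCounterexample M → KernelIn U M → ∀ i j, M i j ∈ W) ∧
    (∀ U : Submodule (algebraicClosure ℚ ℂ) ℂ, FiniteDimensional (algebraicClosure ℚ ℂ) U →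
      ∃ S : Finset ℕ,
        (∀ a b : ℚ, 0 < a → 0 < b → LinearIndependent ℚ ![Real.log a, Real.log b] →
          RatioIn U (Real.log a) (Real.log b) → ComposedOf S a ∧ ComposedOf S b) ∧
        ∀ A : Matrix (Fin 2) (Fin 2) ℚ, (∀ i j, 0 < A i j) →
          IsCounterexample (Matrix.of fun i j => Real.log (A i j)) →
          KernelIn U (Matrix.of fun i j => Real.log (A i j)) → ∀ i j, ComposedOf S (A i j)) ∧
    (∀ T : Submodule (algebraicClosure ℚ ℂ) ℂ, FiniteDimensional (algebraicClosure ℚ ℂ) T →
      (1 : ℂ) ∈ T →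
      (∃ W : Submodule ℚ ℝ, FiniteDimensional ℚ W ∧ (∀ w ∈ W, IsAlgebraic ℚ (Real.exp w)) ∧
        finrank ℚ W ≤ finrank (algebraicClosure ℚ ℂ) T * (finrank (algebraicClosure ℚ ℂ) T - 1) ∧
        ∀ x t : ℝ, IsAlgebraic ℚ (Real.exp x) → (t : ℂ) ∈ T → Irrational t →
          IsAlgebraic ℚ (Real.exp (t * x)) → x ∈ W) ∧
      ∃ S : Finset ℕ, ∀ (a : ℚ) (t : ℝ), 0 < a → (t : ℂ) ∈ T → Irrational t →
        IsAlgebraic ℚ ((a : ℝ) ^ t) → ComposedOf S a) := by
  refine ⟨fun U hU => space U hU, fun U hU => ?_, fun T hT h1T => ⟨col_space T h1T, ?_⟩⟩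
  · obtain ⟨W, hWf, -, -, h1, h2⟩ := space U hU
    obtain ⟨S, hS⟩ := finite_primes W
    refine ⟨S, fun a b ha hb hli hU => ?_, fun A hA hAc hK i j => hS _ (hA i j) (h2 _ hAc hK i j)⟩
    obtain ⟨h3, h4⟩ := h1 _ _ (isAlgebraic_exp_log ha) (isAlgebraic_exp_log hb) hli hU
    exact ⟨hS _ ha h3, hS _ hb h4⟩
  · obtain ⟨W, hWf, -, -, h1⟩ := col_space T h1T
    obtain ⟨S, hS⟩ := finite_primes W
    refine ⟨S, fun a t ha htT ht hat => hS _ ha (h1 _ t (isAlgebraic_exp_log ha) htT ht ?_)⟩
    have ha' : (0 : ℝ) < a := by exact_mod_cast ha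
    rw [Real.rpow_def_of_pos ha', mul_comm] at hat
    exact hat

end Pool.Agent.Results.MP_bbc1fa_nt.RatiosInASpace
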